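import Mathlib
import Pool.Agent.V11111.GF.Stmt

/-!
A growth-fragmentation semigroup on `L¹((0, ∞), x dx)` with bounded fragmentation rate and
conservative fragmentation kernel which has a spectral gap: its essential type is at most `0` and
its type is at least `1`.
-/

set_option autoImplicit false
open Filter Topology MeasureTheory Set
open scoped ENNReal
open Pool.Agent.V11111.GF

namespace Pool.Agent.Results.MP_bbd370_an.GapBoundedRate

theorem result : ∃ (r a : ℝ → ℝ) (b X : ℝ → ℝ → ℝ) (U V : ℝ → X1 →L[ℂ] X1),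
    IsData r a b ∧ Continuous r ∧ (∀ x, a x ≤ 2) ∧
    (∀ y, 0 < y → ∫⁻ x in Ioo 0 y, ENNReal.ofReal (x * b x y) = ENNReal.ofReal y) ∧
    IsFlow r X ∧ IsTransport r a X U ∧ IsC0 U ∧ IsPositive U ∧
    IsC0 V ∧ IsPositive V ∧ IsGenerated a b U V ∧
    (∀ t, 0 < t → essRadius (V t) ≤ 1) ∧ essType V ≤ 0 ∧ 1 ≤ growthBound V ∧
    essType V < growthBound V :=
  main

end Pool.Agent.Results.MP_bbd370_an.GapBoundedRate
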